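import Pool.Agent.Y947.HB.Main
import Pool.Agent.Results.MP_340d6a_an.HolderFails

set_option autoImplicit false

open MeasureTheory Set
open Pool.Agent.Helper303.Db Pool.Agent.Helper303.Ho

namespace Pool.Agent.Results.MP_340d6a_an.NoBoundedSolution

/-- For every `n ≥ 3` there are a bounded pseudoconvex domain `Ω ⊂ ℂⁿ` with real-analytic boundary
and ONE `∂̄`-closed `(0,1)`-form `f` on `Ω` with continuous coefficients and `sup |f| ≤ 1` such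
that no bounded continuous function `u` on `Ω` solves `∂̄u = f`; in particular no solution
satisfies a Hölder condition of any order, and `∂̄` cannot be solved with Hölder estimates. -/
theorem result : ∀ n : ℕ, 3 ≤ n → ∃ Ω : Set (Fin n → ℂ),
    IsOpen Ω ∧ IsConnected Ω ∧ Bornology.IsBounded Ω ∧ Pseudoconvex Ω ∧
      RealAnalyticBoundary Ω ∧
      (∃ f : (Fin n → ℂ) → (Fin n → ℂ), ContinuousOn f Ω ∧
        (∀ x ∈ Ω, Real.sqrt (∑ j, ‖f x j‖ ^ 2) ≤ 1) ∧ DbarClosed Ω f ∧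
        (∀ u : (Fin n → ℂ) → ℂ, ContinuousOn u Ω → (∃ B : ℝ, ∀ x ∈ Ω, ‖u x‖ ≤ B) →
          ¬ SolvesDbar Ω u f) ∧
        ∀ u : (Fin n → ℂ) → ℂ, SolvesDbar Ω u f →
          ∀ ε : ℝ, 0 < ε → ∀ B : ℝ, ¬ HolderNormLE Ω ε u B) ∧
      ¬ HolderEstimates Ω := by
  intro n hn
  obtain ⟨m, rfl⟩ : ∃ m, n = m + 3 := ⟨n - 3, by omega⟩
  obtain ⟨f, h1, h2, h3, h4⟩ := Pool.Agent.Y947.HB.single m
  refine ⟨OmH m, isOpen_OmH, conn_OmH, bdd_OmH, psc_OmH, rab_OmH,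
    ⟨f, h1, h2, h3, h4, ?_⟩, no_holder m⟩
  rintro u hu ε hε B ⟨B₁, B₂, -, -, -, hB1, hB2⟩
  exact h4 u (holder_cont hε hB2) ⟨B₁, hB1⟩ hu

end Pool.Agent.Results.MP_340d6a_an.NoBoundedSolution
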